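import Pool.Agent.Helper74.RN.St

/-!
# Module CHN of project RN (MP_26f0da_lc): all places of the virtual tape are connected
-/

set_option autoImplicit false

namespace Pool.Agent.Helper38.RN

open Pool.Agent.Helper74 Pool.Agent.Helper74.RN

section

variable {G : Type}

theorem re_le (w : List (Option G)) (p : ℕ) (h : p ≤ w.length) : re (rp w p) = false := by
  rcases Nat.eq_zero_or_pos p with h0 | h0
  · subst h0
    simp [re, rp]
  · have h1 : p - 1 < w.length := by omega
    simp [re, rp, List.getElem?_eq_getElem h1]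

theorem re_last (w : List (Option G)) : re (rp w (w.length + 1)) = true := by
  simp [re, rp]

/-- Connected places. -/
def Cn (w : List (Option G)) (c c' : Cd) : Prop := stR w c = c' ∧ stL w c' = c

theorem j0 (w : List (Option G)) : Cn w (.L, 0, 0) (.k true 3, 0, 0) := by
  constructor
  · simp [stR, nx, mv]
  · simp [stL, pv, mv, rp]

theorem j1 (w : List (Option G)) (i : ℕ) (hi : i ≤ w.length) :
    Cn w (.k true 3, i, 0) (.k true 0, i + 1, 0) := by
  have h := re_le w i hi
  constructor
  · have h1 : min (i + 1) (w.length + 1) = i + 1 := by omega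
    simp [stR, nx, mv, h, h1]
  · simp [stL, pv, mv, rp]

theorem j2 (w : List (Option G)) :
    Cn w (.k true 3, w.length + 1, 0) (.k false 0, w.length + 1, 0) := by
  have h := re_last w
  constructor
  · simp [stR, nx, mv, h]
  · have h2 : (rp w 0).1 = true := by simp [rp]
    simp [stL, pv, mv, h, h2]

theorem j3 (w : List (Option G)) (i : ℕ) (hi : i ≤ w.length) :
    Cn w (.k false 3, i + 1, 0) (.k false 0, i, 0) := by
  have h := re_le w i hi
  constructor
  · simp [stR, nx, mv]
  · have h1 : min (i + 1) (w.length + 1) = i + 1 := by omega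
    have h2 : (rp w 0).1 = true := by simp [rp]
    simp [stL, pv, mv, h, h1, h2]

theorem join (w : List (Option G)) (l : List Cd) (b a : Cd) (l' : List Cd)
    (h : Chn w (l ++ [b])) (hR : Cn w b a) (h' : Chn w (a :: l')) :
    Chn w ((l ++ [b]) ++ a :: l') := by
  have h2 : Chn w (b :: a :: l') := ⟨hR, h'⟩
  have h3 := chn_append w l b (a :: l') h h2
  rwa [List.append_assoc, List.singleton_append]

theorem cb_ends (m : ℕ) (p : Bool) (i : ℕ) :
    ∃ X : List Cd, cb m p i = (Ki.k p 0, i, 0) :: (X ++ [(Ki.k p 3, i, 0)]) := by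
  refine ⟨((List.range (m + 1)).map (fun t => ((Ki.k p 0, i, t + 1) : Cd))) ++
    ((Ki.k p 1, i, m + 1) :: (List.range (m + 2)).map (fun t => ((Ki.k p 2, i, m + 1 - t) : Cd))),
    ?_⟩
  unfold cb
  rw [List.range_succ_eq_map (n := m + 1)]
  simp [List.map_map, Function.comp_def, List.append_assoc]

theorem first (w : List (Option G)) (hB : StCHB) (n : ℕ) (hn : n ≤ w.length + 1) :
    Chn w ((Ki.k true 3, 0, 0) :: (List.range n).flatMap (fun i => cb w.length true (i + 1))) ∧
    ∃ X : List Cd, ((Ki.k true 3, 0, 0) :: (List.range n).flatMap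
      (fun i => cb w.length true (i + 1)) : List Cd) = X ++ [(Ki.k true 3, n, 0)] := by
  induction n with
  | zero => exact ⟨trivial, [], by simp⟩
  | succ n ih =>
    obtain ⟨h1, X, hX⟩ := ih (by omega)
    obtain ⟨Y, hY⟩ := cb_ends w.length true (n + 1)
    have hb := hB G w true (n + 1) (by omega) (by omega)
    have e : ((Ki.k true 3, 0, 0) :: (List.range (n + 1)).flatMap
        (fun i => cb w.length true (i + 1)) : List Cd) =
        (X ++ [(Ki.k true 3, n, 0)]) ++ cb w.length true (n + 1) := by
      rw [← hX, List.range_succ]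
      simp [List.flatMap_append]
    rw [e]
    constructor
    · rw [hY] at hb ⊢
      rw [hX] at h1
      exact join w X _ _ _ h1 (j1 w n (by omega)) hb
    · refine ⟨(X ++ [(Ki.k true 3, n, 0)]) ++ (Ki.k true 0, n + 1, 0) :: Y, ?_⟩
      rw [hY]
      simp

theorem second (w : List (Option G)) (hB : StCHB) (S X : List Cd)
    (hS : Chn w S) (hX : S = X ++ [(Ki.k true 3, w.length + 1, 0)]) (n : ℕ)
    (hn : n ≤ w.length + 1) :
    Chn w (S ++ (List.range n).flatMap (fun i => cb w.length false (w.length + 1 - i))) ∧
    ∃ (Y : List Cd) (b : Cd), S ++ (List.range n).flatMap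
      (fun i => cb w.length false (w.length + 1 - i)) = Y ++ [b] ∧
      Cn w b (Ki.k false 0, w.length + 1 - n, 0) := by
  induction n with
  | zero =>
    refine ⟨by simpa using hS, X, _, by simpa using hX, ?_⟩
    exact j2 w
  | succ n ih =>
    obtain ⟨h1, Y, b, hY, hb⟩ := ih (by omega)
    obtain ⟨Z, hZ⟩ := cb_ends w.length false (w.length + 1 - n)
    have hc := hB G w false (w.length + 1 - n) (by omega) (by omega)
    have e : S ++ (List.range (n + 1)).flatMap
        (fun i => cb w.length false (w.length + 1 - i)) =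
        (Y ++ [b]) ++ cb w.length false (w.length + 1 - n) := by
      rw [← hY, List.range_succ]
      simp [List.flatMap_append]
    rw [e]
    constructor
    · rw [hZ] at hc ⊢
      rw [hY] at h1
      exact join w Y _ _ _ h1 hb hc
    · refine ⟨(Y ++ [b]) ++ (Ki.k false 0, w.length + 1 - n, 0) :: Z,
        (Ki.k false 3, w.length + 1 - n, 0), ?_, ?_⟩
      · rw [hZ]
        simp
      · have h2 : w.length + 1 - n = (w.length + 1 - (n + 1)) + 1 := by omega
        rw [h2]
        exact j3 w _ (by omega)

end

/-- Module CHN. -/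
theorem hCHN (hCHB : StCHB) : StCHN := by
  intro G w
  refine ⟨?_, ?_, ?_⟩
  · obtain ⟨h1, X, hX⟩ := first w hCHB (w.length + 1) le_rfl
    obtain ⟨h2, Y, b, hY, hb⟩ := second w hCHB _ X h1 hX (w.length + 1) le_rfl
    have e : Cm w.length = Y ++ [b] := by
      rw [← hY]
      simp [Cm]
    have h3 : Chn w (Cm w.length ++ [(Ki.k false 0, 0, 0)]) := by
      rw [e]
      refine join w Y b _ [] ?_ ?_ trivial
      · rw [← hY]
        exact h2
      · simpa using hb
    have e2 : Cl w.length = (Ki.L, 0, 0) :: (Ki.k true 3, 0, 0) ::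
        (((List.range (w.length + 1)).flatMap (fun i => cb w.length true (i + 1)) ++
        (List.range (w.length + 1)).flatMap (fun i => cb w.length false (w.length + 1 - i))) ++
        [(Ki.k false 0, 0, 0)]) := by
      simp [Cl, Cm]
    rw [e2]
    refine ⟨j0 w, ?_⟩
    have e3 : Cm w.length ++ [(Ki.k false 0, 0, 0)] = (Ki.k true 3, 0, 0) ::
        (((List.range (w.length + 1)).flatMap (fun i => cb w.length true (i + 1)) ++
        (List.range (w.length + 1)).flatMap (fun i => cb w.length false (w.length + 1 - i))) ++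
        [(Ki.k false 0, 0, 0)]) := by
      simp [Cm]
    rw [← e3]
    exact h3
  · simp [stR, nx, mv, rp]
  · simp [stL, pv, mv]

end Pool.Agent.Helper38.RN
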